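import Pool.Agent.helper60.DB.SpecC

/-!
# Row bc:CS
-/

set_option autoImplicit false

namespace Pool.Agent.helper60.DB

open Polynomial Finset

theorem CS_mn {k : Type} [Field k] (p m : ℕ) [CharP k p] (h1 : 1 ≤ m) (hpm : p = 2 * m + 1) (e : k) :
    Mn (C e * X ^ m) (1 : k[X]) = 0 := by
  obtain ⟨m', rfl⟩ : ∃ m', m = m' + 1 := ⟨m - 1, by omega⟩
  have hp : ((p : ℕ) : k[X]) = 0 := CharP.cast_eq_zero k[X] p
  rw [hpm] at hp
  push_cast at hp
  unfold Mn
  rw [derivative_one, derivative_C_mul_X_pow]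
  have h2 : (C (e * ((m' + 1 : ℕ) : k)) : k[X]) = C e * ((m' : k[X]) + 1) := by
    rw [C_mul]
    congr 1
    push_cast
    rw [C_add, C_1, map_natCast]
  rw [h2, Nat.add_sub_cancel]
  linear_combination (C e * X ^ (m' + 1)) * hp

theorem CS (hPV : PV_stmt) (hSF : SF_stmt) (hMR : MR_stmt) : CS_stmt := by
  intro R k _ _ _ _ p m _ _ q hL h5 hpm A B A' B' π α y g u N D hy hMl hπα hB hAB hDg hNq hDq hB'
  obtain ⟨hM1, -⟩ := hMR R g N D hDg
  have hm1 : 1 ≤ m := by omega
  -- `Mn N D` modulo `p`
  have hMnq : (Mn N D).map q = 0 := by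
    have h1 : (Mn N D).map q = Mn (N.map q) (D.map q) := by
      unfold Mn
      rw [derivative_map, derivative_map]
      simp only [Polynomial.map_add, Polynomial.map_mul, Polynomial.map_sub, Polynomial.map_X,
        Polynomial.map_ofNat]
    rw [h1, hNq, hDq]
    exact CS_mn p m hm1 hpm _
  obtain ⟨M', hM'⟩ := ((hPV R k p q hL).2 (Mn N D)).1 hMnq
  have hp0 : (p : R) ≠ 0 := by
    have h1 : p ≠ 0 := by omega
    exact_mod_cast h1
  have hCp : PowerSeries.C (p : R) ≠ 0 := by
    intro h
    apply hp0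
    have h1 := congrArg PowerSeries.constantCoeff h
    rw [PowerSeries.constantCoeff_C, map_zero] at h1
    exact h1
  have hode := hMl.ode
  have h1 : PowerSeries.C α * y * (M' : PowerSeries R) = (D : PowerSeries R) ^ 2 * u := by
    apply mul_left_cancel₀ hCp
    have h2 : PowerSeries.C (p : R) * (M' : PowerSeries R) =
        (D : PowerSeries R) ^ 2 * (g + EE g) := by
      rw [hM1, hM', Polynomial.coe_mul, Polynomial.coe_C]
    have h3 : PowerSeries.C (p : R) = PowerSeries.C π * PowerSeries.C α := by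
      rw [← map_mul, hπα]
    calc PowerSeries.C (p : R) * (PowerSeries.C α * y * (M' : PowerSeries R))
        = PowerSeries.C α * y * (PowerSeries.C (p : R) * (M' : PowerSeries R)) := by ring
      _ = PowerSeries.C α * (D : PowerSeries R) ^ 2 * (y * (g + EE g)) := by rw [h2]; ring
      _ = PowerSeries.C α * (D : PowerSeries R) ^ 2 * (PowerSeries.C π * u) := by rw [hode]
      _ = PowerSeries.C (p : R) * ((D : PowerSeries R) ^ 2 * u) := by rw [h3]; ring
  -- reduce modulo `p`
  have hDp : PowerSeries.map q (D : PowerSeries R) = 1 := by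
    rw [← Polynomial.polynomial_map_coe, hDq, Polynomial.coe_one]
  have hg : PowerSeries.map q g = PowerSeries.C (q (N.coeff m)) * PowerSeries.X ^ m := by
    have h2 := congrArg (PowerSeries.map q) hDg
    rw [map_mul, hDp, one_mul, ← Polynomial.polynomial_map_coe, hNq, Polynomial.coe_mul,
      Polynomial.coe_C, Polynomial.coe_pow, Polynomial.coe_X] at h2
    exact h2
  have hu : PowerSeries.map q u =
      PowerSeries.C (q α) * PowerSeries.map q y * ((M'.map q : k[X]) : PowerSeries k) := by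
    have h2 := congrArg (PowerSeries.map q) h1
    rw [map_mul, map_mul, map_mul, map_pow, hDp, one_pow, one_mul, PowerSeries.map_C,
      ← Polynomial.polynomial_map_coe] at h2
    exact h2.symm
  have hyq : (PowerSeries.map q y) ^ 2 = ((qf (q A) (q B) : k[X]) : PowerSeries k) := by
    rw [← map_pow, hy.sq]
    unfold qf
    simp only [map_add, map_mul, map_pow, map_one, PowerSeries.map_C, PowerSeries.map_X,
      Polynomial.coe_add, Polynomial.coe_mul, Polynomial.coe_pow, Polynomial.coe_one,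
      Polynomial.coe_C, Polynomial.coe_X]
  obtain ⟨a, ha⟩ := hL.root (q A' * q (N.coeff m) ^ 2)
  have hBq : q B' * q (N.coeff m) ^ 4 = q B ^ p := by
    rw [← map_pow, ← map_mul, hB', map_pow]
  have hf1 : (qf a (q B)) ^ p = 1 + C (q A' * q (N.coeff m) ^ 2) * X ^ p
      + C (q B' * q (N.coeff m) ^ 4) * (X ^ p) ^ 2 := by
    unfold qf
    rw [add_pow_char, add_pow_char, one_pow, mul_pow, mul_pow, ← C_pow, ← C_pow, ha, hBq, ← pow_mul,
      ← pow_mul, mul_comm 2 p]
  have hu2 : (PowerSeries.map q u) ^ 2 = (((qf a (q B)) ^ p : k[X]) : PowerSeries k) := by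
    rw [← map_pow, hMl.cur, hf1]
    simp only [map_add, map_mul, map_pow, map_one, PowerSeries.map_C, PowerSeries.map_X,
      Polynomial.coe_add, Polynomial.coe_mul, Polynomial.coe_pow, Polynomial.coe_one,
      Polynomial.coe_C, Polynomial.coe_X, hg]
    rw [hpm]
    ring
  have hpoly : (C (q α) * M'.map q) ^ 2 * qf (q A) (q B) = (qf a (q B)) ^ p := by
    apply Polynomial.coe_injective
    rw [← hu2, hu, Polynomial.coe_mul, ← hyq, Polynomial.coe_pow, Polynomial.coe_mul, Polynomial.coe_C]
    ring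
  have hA2 : (q A) ^ 2 ≠ 4 * q B := by
    intro h
    apply hAB
    rw [map_sub, map_mul, map_pow, h, map_ofNat, sub_self]
  obtain ⟨hsq, hdeg⟩ := hSF k (q A) (q B) hB hA2
  have hdvd : qf (q A) (q B) ∣ qf a (q B) := by
    have hp1 : p ≠ 0 := by omega
    rw [← hsq.dvd_pow_iff_dvd hp1, ← hpoly]
    exact Dvd.intro_left _ rfl
  obtain ⟨c, hc⟩ := hdvd
  have hdeg2 : (qf a (q B)).natDegree ≤ 2 := by
    unfold qf
    compute_degree
  have hc0 : (qf a (q B)).coeff 0 = 1 := by
    unfold qf
    simp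
  have hc0' : (qf (q A) (q B)).coeff 0 = 1 := by
    unfold qf
    simp
  have hne : qf a (q B) ≠ 0 := by
    intro h
    rw [h, coeff_zero] at hc0
    exact zero_ne_one hc0
  have hcn : c.natDegree = 0 := by
    have hq0 : qf (q A) (q B) ≠ 0 := by
      intro h
      rw [h, zero_mul] at hc
      exact hne hc
    have hcc : c ≠ 0 := by
      intro h
      rw [h, mul_zero] at hc
      exact hne hc
    have h2 := natDegree_mul hq0 hcc
    rw [← hc, hdeg] at h2
    omega
  obtain ⟨c', rfl⟩ := natDegree_eq_zero.1 hcn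
  have hc1 : c' = 1 := by
    have h2 : (qf a (q B)).coeff 0 = (qf (q A) (q B) * C c').coeff 0 := by rw [← hc]
    rw [hc0, mul_coeff_zero, hc0', coeff_C_zero, one_mul] at h2
    exact h2.symm
  rw [hc1, C_1, mul_one] at hc
  have ha1 : a = q A := by
    have h2 : (qf a (q B)).coeff 1 = (qf (q A) (q B)).coeff 1 := by rw [hc]
    unfold qf at h2
    simpa [coeff_one, coeff_X] using h2
  rw [← ha, ha1]

end Pool.Agent.helper60.DB
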